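import Pool.Agent.H79.BN.ChkF
import Pool.Agent.H79.BN.C7

/-!
# Non-separation, row FC2: the fast checker implies the integral checker
-/

set_option autoImplicit false

namespace Pool.Agent.H1.BN

open Set Pool.Agent.H93.BL Pool.Agent.H79.BN

lemma ipos_not_ineg {u : ℤ} (hu : ipos u = true) : (!(ineg u)) = true := by
  rw [ipos_iff] at hu
  rw [Bool.not_eq_true', ← Bool.not_eq_true, ineg_iff]
  omega

lemma ineg_not_ipos {u : ℤ} (hu : ineg u = true) : (!(ipos u)) = true := by
  rw [ineg_iff] at hu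
  rw [Bool.not_eq_true', ← Bool.not_eq_true, ipos_iff]
  omega

lemma ipos2_of {u v : ℤ} (hu : ipos u = true) (hv : (!(ineg v)) = true) : ipos2 u v = true := by
  unfold ipos2
  rw [ipos_not_ineg hu, hv, hu]
  rfl

lemma ineg2_of {u v : ℤ} (hu : ineg u = true) (hv : (!(ipos v)) = true) : ineg2 u v = true := by
  unfold ineg2
  rw [ineg_not_ipos hu, hv, hu]
  rfl

lemma iz_one_mul (x : ℤ) : iz (Int.sub (Int.mul 1 x) x) = true := by
  rw [iz_iff]
  change 1 * x - x = 0
  ring

section

variable {n : ℕ} [NeZero n]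

theorem cchk_sound (hFC1 : T_FC1) (w : Fin n → PI) (S : ℕ → Sd) (E : Fin n → Bool)
    (hS : chkSd w S = true) (v : Fin n) (k c : ℕ) (ex ey fx fy : ℤ)
    (hex : ex = Int.sub (w (v + 1)).x (w v).x) (hey : ey = Int.sub (w (v + 1)).y (w v).y)
    (hfx : fx = Int.sub (w v).x (w (v - 1)).x) (hfy : fy = Int.sub (w v).y (w (v - 1)).y) (m : ℕ) :
    ∀ (o : Bool) (a b a' b' : ℤ),
      cchk S E (w v).x (w v).y ex ey fx fy k c m o a b a' b' = true →
      chkI w E (cornT v (pth k c .nil) m o) (w v).x (w v).y 1 a b a' b' = true ∧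
      chkI w E (cornT v (pth k c .nil) m o) (w v).x (w v).y 1 a b a b = true := by
  induction m with
  | zero =>
    intro o a b a' b' h
    have h1 : pchk S E k c a b (icr a b (w v).x (w v).y) a' b' (icr a' b' (w v).x (w v).y) = true :=
      h
    have h2 := hFC1 n w S E hS k c (w v).x (w v).y 1 a b (icr a b (w v).x (w v).y) a' b'
      (icr a' b' (w v).x (w v).y) one_pos (one_mul _).symm (one_mul _).symm h1
    cases o <;> exact h2
  | succ m ih =>
    intro o a b a' b' h
    cases o with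
    | false =>
      have h1 : (ipos (icr ex ey a b) && (!(ineg (icr ex ey a' b')) && (ineg (icr fx fy a b) &&
          (!(ipos (icr fx fy a' b')) && cchk S E (w v).x (w v).y ex ey fx fy k c m true
            (Int.add (Int.mul (Int.sub (Int.mul fx fx) (Int.mul fy fy)) a)
              (Int.mul (Int.mul 2 (Int.mul fx fy)) b))
            (Int.sub (Int.mul (Int.mul 2 (Int.mul fx fy)) a)
              (Int.mul (Int.sub (Int.mul fx fx) (Int.mul fy fy)) b))
            (Int.add (Int.mul (Int.sub (Int.mul fx fx) (Int.mul fy fy)) a')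
              (Int.mul (Int.mul 2 (Int.mul fx fy)) b'))
            (Int.sub (Int.mul (Int.mul 2 (Int.mul fx fy)) a')
              (Int.mul (Int.sub (Int.mul fx fx) (Int.mul fy fy)) b')))))) = true := h
      rw [Bool.and_eq_true, Bool.and_eq_true, Bool.and_eq_true, Bool.and_eq_true] at h1
      obtain ⟨h1, h2, h3, h4, h5⟩ := h1
      obtain ⟨h6, h7⟩ := ih _ _ _ _ _ h5
      constructor
      · change ((iz (Int.sub (Int.mul 1 (w v).x) (w v).x) && iz (Int.sub (Int.mul 1 (w v).y) (w v).y) &&
          ipos2 (icr (Int.sub (w (v + 1)).x (w v).x) (Int.sub (w (v + 1)).y (w v).y) a b)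
            (icr (Int.sub (w (v + 1)).x (w v).x) (Int.sub (w (v + 1)).y (w v).y) a' b') &&
          ineg2 (icr (Int.sub (w v).x (w (v - 1)).x) (Int.sub (w v).y (w (v - 1)).y) a b)
            (icr (Int.sub (w v).x (w (v - 1)).x) (Int.sub (w v).y (w (v - 1)).y) a' b') &&
          (E (v - 1) || aftI (chkI w E (cornT v (pth k c .nil) m true)) (w v)
            (Int.sub (w v).x (w (v - 1)).x) (Int.sub (w v).y (w (v - 1)).y) a b a' b')) = true)
        rw [← hex, ← hey, ← hfx, ← hfy, iz_one_mul, iz_one_mul, ipos2_of h1 h2, ineg2_of h3 h4,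
          show aftI (chkI w E (cornT v (pth k c .nil) m true)) (w v) fx fy a b a' b' = true from h6,
          Bool.or_true]
        rfl
      · change ((iz (Int.sub (Int.mul 1 (w v).x) (w v).x) && iz (Int.sub (Int.mul 1 (w v).y) (w v).y) &&
          ipos2 (icr (Int.sub (w (v + 1)).x (w v).x) (Int.sub (w (v + 1)).y (w v).y) a b)
            (icr (Int.sub (w (v + 1)).x (w v).x) (Int.sub (w (v + 1)).y (w v).y) a b) &&
          ineg2 (icr (Int.sub (w v).x (w (v - 1)).x) (Int.sub (w v).y (w (v - 1)).y) a b)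
            (icr (Int.sub (w v).x (w (v - 1)).x) (Int.sub (w v).y (w (v - 1)).y) a b) &&
          (E (v - 1) || aftI (chkI w E (cornT v (pth k c .nil) m true)) (w v)
            (Int.sub (w v).x (w (v - 1)).x) (Int.sub (w v).y (w (v - 1)).y) a b a b)) = true)
        rw [← hex, ← hey, ← hfx, ← hfy, iz_one_mul, iz_one_mul, ipos2_of h1 (ipos_not_ineg h1),
          ineg2_of h3 (ineg_not_ipos h3),
          show aftI (chkI w E (cornT v (pth k c .nil) m true)) (w v) fx fy a b a b = true from h7,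
          Bool.or_true]
        rfl
    | true =>
      have h1 : (ipos (icr fx fy a b) && (!(ineg (icr fx fy a' b')) && (ineg (icr ex ey a b) &&
          (!(ipos (icr ex ey a' b')) && cchk S E (w v).x (w v).y ex ey fx fy k c m false
            (Int.add (Int.mul (Int.sub (Int.mul ex ex) (Int.mul ey ey)) a)
              (Int.mul (Int.mul 2 (Int.mul ex ey)) b))
            (Int.sub (Int.mul (Int.mul 2 (Int.mul ex ey)) a)
              (Int.mul (Int.sub (Int.mul ex ex) (Int.mul ey ey)) b))
            (Int.add (Int.mul (Int.sub (Int.mul ex ex) (Int.mul ey ey)) a')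
              (Int.mul (Int.mul 2 (Int.mul ex ey)) b'))
            (Int.sub (Int.mul (Int.mul 2 (Int.mul ex ey)) a')
              (Int.mul (Int.sub (Int.mul ex ex) (Int.mul ey ey)) b')))))) = true := h
      rw [Bool.and_eq_true, Bool.and_eq_true, Bool.and_eq_true, Bool.and_eq_true] at h1
      obtain ⟨h1, h2, h3, h4, h5⟩ := h1
      obtain ⟨h6, h7⟩ := ih _ _ _ _ _ h5
      constructor
      · change ((iz (Int.sub (Int.mul 1 (w v).x) (w v).x) && iz (Int.sub (Int.mul 1 (w v).y) (w v).y) &&
          ipos2 (icr (Int.sub (w v).x (w (v - 1)).x) (Int.sub (w v).y (w (v - 1)).y) a b)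
            (icr (Int.sub (w v).x (w (v - 1)).x) (Int.sub (w v).y (w (v - 1)).y) a' b') &&
          ineg2 (icr (Int.sub (w (v + 1)).x (w v).x) (Int.sub (w (v + 1)).y (w v).y) a b)
            (icr (Int.sub (w (v + 1)).x (w v).x) (Int.sub (w (v + 1)).y (w v).y) a' b') &&
          (E v || aftI (chkI w E (cornT v (pth k c .nil) m false)) (w v)
            (Int.sub (w (v + 1)).x (w v).x) (Int.sub (w (v + 1)).y (w v).y) a b a' b')) = true)
        rw [← hex, ← hey, ← hfx, ← hfy, iz_one_mul, iz_one_mul, ipos2_of h1 h2, ineg2_of h3 h4,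
          show aftI (chkI w E (cornT v (pth k c .nil) m false)) (w v) ex ey a b a' b' = true from h6,
          Bool.or_true]
        rfl
      · change ((iz (Int.sub (Int.mul 1 (w v).x) (w v).x) && iz (Int.sub (Int.mul 1 (w v).y) (w v).y) &&
          ipos2 (icr (Int.sub (w v).x (w (v - 1)).x) (Int.sub (w v).y (w (v - 1)).y) a b)
            (icr (Int.sub (w v).x (w (v - 1)).x) (Int.sub (w v).y (w (v - 1)).y) a b) &&
          ineg2 (icr (Int.sub (w (v + 1)).x (w v).x) (Int.sub (w (v + 1)).y (w v).y) a b)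
            (icr (Int.sub (w (v + 1)).x (w v).x) (Int.sub (w (v + 1)).y (w v).y) a b) &&
          (E v || aftI (chkI w E (cornT v (pth k c .nil) m false)) (w v)
            (Int.sub (w (v + 1)).x (w v).x) (Int.sub (w (v + 1)).y (w v).y) a b a b)) = true)
        rw [← hex, ← hey, ← hfx, ← hfy, iz_one_mul, iz_one_mul, ipos2_of h1 (ipos_not_ineg h1),
          ineg2_of h3 (ineg_not_ipos h3),
          show aftI (chkI w E (cornT v (pth k c .nil) m false)) (w v) ex ey a b a b = true from h7,
          Bool.or_true]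
        rfl

theorem chkH_sound (hFC1 : T_FC1) (w : Fin n → PI) (S : ℕ → Sd) (E : Fin n → Bool)
    (hS : chkSd w S = true) (i : Fin n) (a : ItemF n) (a' b' : ℤ)
    (h : chkH S E (w (i + 1)).x (w (i + 1)).y
      (Int.sub (w (i + 1 + 1)).x (w (i + 1)).x) (Int.sub (w (i + 1 + 1)).y (w (i + 1)).y)
      (Int.sub (w (i + 1)).x (w i).x) (Int.sub (w (i + 1)).y (w i).y) a a' b' = true) :
    chkOptI w E i a.o' (a.tr (i + 1)) a.x a.y a' b' = true ∧
    chkOptI w E i a.o' (a.tr (i + 1)) a.x a.y a.x a.y = true := by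
  have hv : i + 1 - 1 = i := by simp
  have key := cchk_sound hFC1 w S E hS (i + 1) a.k a.c
    (Int.sub (w (i + 1 + 1)).x (w (i + 1)).x) (Int.sub (w (i + 1 + 1)).y (w (i + 1)).y)
    (Int.sub (w (i + 1)).x (w i).x) (Int.sub (w (i + 1)).y (w i).y) rfl rfl (by rw [hv]) (by rw [hv])
    a.m
  obtain ⟨x, y, o, t, o', m, k, c⟩ := a
  rcases o' with _ | _ | _ | o'
  · exact key true _ _ _ _ h
  · simp only [chkH, Bool.and_eq_true] at h
    obtain ⟨h1, h2, h3⟩ := h
    obtain ⟨h4, h5⟩ := key true _ _ _ _ h3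
    constructor
    · simp only [chkOptI, Bool.and_eq_true]
      exact ⟨ineg2_of h1 h2, h4⟩
    · simp only [chkOptI, Bool.and_eq_true]
      exact ⟨ineg2_of h1 (ineg_not_ipos h1), h5⟩
  · simp only [chkH, Bool.and_eq_true] at h
    obtain ⟨h1, h2, h3⟩ := h
    obtain ⟨h4, h5⟩ := key false _ _ _ _ h3
    constructor
    · simp only [chkOptI, Bool.and_eq_true]
      exact ⟨ineg2_of h1 h2, h4⟩
    · simp only [chkOptI, Bool.and_eq_true]
      exact ⟨ineg2_of h1 (ineg_not_ipos h1), h5⟩
  · simp [chkH] at h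

lemma chkOptI_nil (w : Fin n → PI) (E : Fin n → Bool) (i : Fin n) (o : ℕ) (a b c d : ℤ) :
    chkOptI w E i o .nil a b c d = false := by
  rcases o with _ | _ | o <;> simp [chkOptI, chkI, aftI]

lemma toI_x (v : Fin n) (a : ItemF n) : (a.toI v).x = a.x := by
  unfold ItemF.toI
  split <;> rfl

lemma toI_y (v : Fin n) (a : ItemF n) : (a.toI v).y = a.y := by
  unfold ItemF.toI
  split <;> rfl

lemma toI_o' (v : Fin n) (a : ItemF n) : (a.toI v).o' = a.o' := by
  unfold ItemF.toI
  split <;> rfl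

lemma toI_t' (v : Fin n) (a : ItemF n) : (a.toI v).t' = a.tr v := by
  unfold ItemF.toI
  split <;> rfl

theorem chkCovF_sound (hFC1 : T_FC1) (w : Fin n → PI) (S : ℕ → Sd) (E : Fin n → Bool)
    (hS : chkSd w S = true) (i : Fin n) (gx gy : ℤ) (L : List (ItemF n)) :
    chkCovF w S E i (w (i + 1)).x (w (i + 1)).y
      (Int.sub (w (i + 1 + 1)).x (w (i + 1)).x) (Int.sub (w (i + 1 + 1)).y (w (i + 1)).y)
      (Int.sub (w (i + 1)).x (w i).x) (Int.sub (w (i + 1)).y (w i).y) gx gy L = true →
    chkCovI w E i gx gy (L.map (ItemF.toI (i + 1))) = true := by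
  induction L with
  | nil =>
    intro h
    exact absurd h (by simp [chkCovF])
  | cons a L ih =>
    intro h
    rcases L with _ | ⟨b, L⟩
    · simp only [chkCovF, Bool.and_eq_true] at h
      obtain ⟨h1, h2, h3⟩ := h
      simp only [List.map, chkCovI, Bool.and_eq_true, toI_x, toI_y]
      refine ⟨?_, h2, h3⟩
      have ht : (a.toI (i + 1)).o = a.o ∧ (a.toI (i + 1)).t = a.t := by
        unfold ItemF.toI
        split
        · rename_i h4
          rw [h4, chkOptI_nil] at h1
          exact absurd h1 (by simp)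
        · exact ⟨rfl, rfl⟩
      rw [ht.1, ht.2]
      exact h1
    · rw [chkCovF, Bool.and_eq_true, Bool.and_eq_true, Bool.and_eq_true] at h
      obtain ⟨h1, h2, h3, h4⟩ := h
      have h5 := ih h4
      have h6 : chkOptI w E i (a.toI (i + 1)).o (a.toI (i + 1)).t a.x a.y a.x a.y = true ∧
          chkOptI w E i a.o' (a.tr (i + 1)) a.x a.y b.x b.y = true := by
        obtain ⟨x, y, o, t, o', m, k, c⟩ := a
        cases t with
        | nil => exact (chkH_sound hFC1 w S E hS i _ _ _ h3).symm
        | _ => exact (Bool.and_eq_true_iff.1 h3)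
      rw [List.map_cons, List.map_cons, chkCovI, Bool.and_eq_true, Bool.and_eq_true,
        Bool.and_eq_true, Bool.and_eq_true]
      simp only [toI_x, toI_y, toI_o', toI_t']
      refine ⟨h6.1, ⟨⟨h1, h2⟩, h6.2⟩, ?_⟩
      rw [List.map_cons] at h5
      exact h5

end

theorem fc2 : T_FC2 := by
  intro hFC1 n _ w S E hS i L h
  rcases L with _ | ⟨a, L⟩
  · exact absurd h (by simp [chkVF])
  · rw [chkVF, Bool.and_eq_true, Bool.and_eq_true] at h
    obtain ⟨⟨h1, h2⟩, h3⟩ := h
    have h4 := chkCovF_sound hFC1 w S E hS i _ _ (a :: L) h3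
    rw [List.map_cons] at h4 ⊢
    rw [chkVI, Bool.and_eq_true, Bool.and_eq_true]
    simp only [toI_x, toI_y]
    exact ⟨⟨h1, h2⟩, h4⟩

end Pool.Agent.H1.BN
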